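import Pool.Agent.Q178.DPF.Size
import Pool.Agent.Q178.DPF.Asym

/-!
# Perfectly secure three-party distributed point functions with subpolynomial keys

For every finite abelian group `G` there is a family of perfectly secure three-party distributed
point functions with output group `G`, one for each domain size `N`, whose key size is
`exp (O (sqrt (log N) * log log N)) = N ^ o (1)`.
-/

namespace Pool.Agent.Results.MP_38e169_lc.PerfectThreeParty

open Finset Filter

/-- An `m`-party distributed point function with domain `[N]` and output group `G`: a randomized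
key generation (keys are bit strings) and evaluation maps such that for all `α`, `β` every tuple of
keys which can occur gives additive shares of the point function with value `β` at `α`. -/
structure DPF (m N : ℕ) (G : Type) [AddCommGroup G] where
  /-- randomized key generation -/
  gen : Fin N → G → PMF (Fin m → List Bool)
  /-- evaluation: party, key, input -/
  eval : Fin m → List Bool → Fin N → G
  /-- correctness -/
  correct : ∀ (α : Fin N) (β : G), ∀ k ∈ (gen α β).support, ∀ x : Fin N,
    ∑ i, eval i (k i) x = if x = α then β else 0

variable {m N : ℕ} {G : Type} [AddCommGroup G]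

/-- Perfect security with threshold one: the distribution of the key of each party is the same for
all point functions. -/
def DPF.PerfectlySecure (D : DPF m N G) : Prop :=
  ∀ (i : Fin m) (α : Fin N) (β : G) (α' : Fin N) (β' : G),
    (D.gen α β).map (fun k => k i) = (D.gen α' β').map (fun k => k i)

/-- Every key which can occur has bit length at most `L`. -/
def DPF.KeySizeAtMost (D : DPF m N G) (L : ℕ) : Prop :=
  ∀ (α : Fin N) (β : G), ∀ k ∈ (D.gen α β).support, ∀ i, (k i).length ≤ L

open Pool.Agent.Q178.DPF in
theorem toDPF {K : Type} [Finite K] [Nonempty K] (S : Scheme G (Fin N) K) (L : ℕ)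
    (hL : Nat.card K ≤ 2 ^ L) : ∃ D : DPF 3 N G, D.PerfectlySecure ∧ D.KeySizeAtMost L := by
  classical
  have : Fintype K := Fintype.ofFinite K
  obtain ⟨e⟩ : Nonempty (K ↪ (Fin L → Bool)) := by
    apply Function.Embedding.nonempty_of_card_le
    rw [← Nat.card_eq_fintype_card]
    simpa using hL
  set enc : K → List Bool := fun k => List.ofFn (e k) with henc
  have hinj : Function.Injective enc := by
    intro k k' h
    exact e.injective (List.ofFn_injective h)
  set dec : List Bool → K := Function.invFun enc with hdec
  have hde : ∀ k, dec (enc k) = k := Function.leftInverse_invFun hinj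
  set gen : Fin N → G → PMF (Fin 3 → List Bool) := fun α β =>
    (PMF.uniformOfFintype K).map (fun ω i => enc (S.gen α β ω i)) with hgen
  have hsupp : ∀ α β, ∀ k ∈ (gen α β).support, ∃ ω, k = fun i => enc (S.gen α β ω i) := by
    intro α β k hk
    rw [hgen, PMF.mem_support_map_iff] at hk
    obtain ⟨ω, -, rfl⟩ := hk
    exact ⟨ω, rfl⟩
  refine ⟨⟨gen, fun i k x => S.eval i (dec k) x, ?_⟩, ?_, ?_⟩
  · intro α β k hk x
    obtain ⟨ω, rfl⟩ := hsupp α β k hk
    simp only [hde]
    by_cases hx : x = α
    · rw [if_pos hx, hx, S.correct]
    · rw [if_neg hx, S.correct' α β ω x hx]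
  · have key : ∀ i α β, (gen α β).map (fun k => k i)
        = (PMF.uniformOfFintype K).map enc := by
      intro i α β
      have hb := S.bij i α β
      set E := Equiv.ofBijective _ hb with hE
      have hunif : (PMF.uniformOfFintype K).map (fun ω => S.gen α β ω i)
          = PMF.uniformOfFintype K := by
        ext k
        rw [PMF.map_apply]
        rw [tsum_eq_single (E.symm k)]
        · have : k = S.gen α β (E.symm k) i := (E.apply_symm_apply k).symm
          rw [if_pos this]
          simp
        · intro ω hω
          rw [if_neg]
          intro h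
          apply hω
          rw [h]
          exact (E.symm_apply_apply ω).symm
      rw [hgen]
      simp only
      rw [PMF.map_comp]
      conv_rhs => rw [← hunif, PMF.map_comp]
      rfl
    intro i α β α' β'
    change (gen α β).map (fun k => k i) = (gen α' β').map (fun k => k i)
    rw [key, key]
  · intro α β k hk i
    obtain ⟨ω, rfl⟩ := hsupp α β k hk
    simp [henc]

/-- **Perfectly secure three-party distributed point functions with subpolynomial keys exist.**
For every finite abelian group `G` there are a constant `C` and for each `N` a perfectly secure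
three-party DPF with domain `[N]`, output group `G` and key size at most
`L N = C (2 n + 1) ^ (C (⌊√n⌋ + 1))` bits, where `n = ⌈log₂ N⌉`; hence `L N = N ^ o (1)`. -/
theorem result (G : Type) [AddCommGroup G] [Finite G] :
    ∃ (C : ℕ) (L : ℕ → ℕ) (D : ∀ N : ℕ, DPF 3 N G),
      (∀ N, (D N).PerfectlySecure ∧ (D N).KeySizeAtMost (L N)) ∧
      (∀ N, L N = C * (2 * Nat.clog 2 N + 1) ^ (C * (Nat.sqrt (Nat.clog 2 N) + 1))) ∧
      (∀ ε : ℝ, 0 < ε → ∀ᶠ N : ℕ in atTop, (L N : ℝ) ≤ (N : ℝ) ^ ε) := by
  obtain ⟨C, hC⟩ := Pool.Agent.Q178.DPF.group_scheme G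
  set L : ℕ → ℕ := fun N => C * (2 * Nat.clog 2 N + 1) ^ (C * (Nat.sqrt (Nat.clog 2 N) + 1))
    with hL
  have hD : ∀ N, ∃ D : DPF 3 N G, D.PerfectlySecure ∧ D.KeySizeAtMost (L N) := by
    intro N
    obtain ⟨K, h1, h2, ⟨S⟩, hc⟩ := hC N
    exact toDPF S (L N) hc
  choose D hD using hD
  exact ⟨C, L, D, hD, fun N => rfl, fun ε hε => Pool.Agent.Q178.DPF.subpoly C ε hε⟩

end Pool.Agent.Results.MP_38e169_lc.PerfectThreeParty
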